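import Pool.Agent.Helper89.GEN.Regular

/-!
# Generalised inverses for matrices of algebraic maps
-/

namespace Pool.Agent.Helper89.GEN

open Module

universe u v w

/-- rational spaces of maps of degree `r` between spaces `P A` -/
structure Sys (F : Type u) [Field F] where
  Obj : Type v
  P : Obj → Type w
  [grp : ∀ A, AddCommGroup (P A)]
  [mod : ∀ A, Module F (P A)]
  [fin : ∀ A, FiniteDimensional F (P A)]
  C : ∀ (A B : Obj) (_ : ℤ), AddSubgroup (P A →ₗ[F] P B)
  smul : ∀ (A B : Obj) (r : ℤ) (q : ℚ), ∀ f ∈ C A B r, (q : F) • f ∈ C A B r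
  comp : ∀ (A B D : Obj) (r s : ℤ), ∀ f ∈ C A B r, ∀ g ∈ C B D s, g ∘ₗ f ∈ C A D (r + s)

attribute [instance] Sys.grp Sys.mod Sys.fin

variable {F : Type u} [Field F] (S : Sys.{u, v, w} F)

section Matrices

variable {ι : Type} [DecidableEq ι] (Y : ι → S.Obj)

/-- matrices of algebraic maps -/
def Mat (s t : ι → ℤ) : AddSubgroup (Module.End F (∀ j, S.P (Y j))) where
  carrier := {a | ∀ j k, LinearMap.proj j ∘ₗ a ∘ₗ LinearMap.single F (fun j => S.P (Y j)) k ∈
    S.C (Y k) (Y j) (s k - t j)}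
  add_mem' := by
    intro a b ha hb j k
    have e : LinearMap.proj j ∘ₗ (a + b) ∘ₗ LinearMap.single F (fun j => S.P (Y j)) k =
        LinearMap.proj j ∘ₗ a ∘ₗ LinearMap.single F (fun j => S.P (Y j)) k +
        LinearMap.proj j ∘ₗ b ∘ₗ LinearMap.single F (fun j => S.P (Y j)) k := by
      ext x; rfl
    rw [e]
    exact (S.C _ _ _).add_mem (ha j k) (hb j k)
  zero_mem' := by
    intro j k
    have e : LinearMap.proj j ∘ₗ (0 : Module.End F (∀ j, S.P (Y j))) ∘ₗ
        LinearMap.single F (fun j => S.P (Y j)) k = (0 : S.P (Y k) →ₗ[F] S.P (Y j)) := by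
      ext x; rfl
    rw [e]
    exact (S.C _ _ _).zero_mem
  neg_mem' := by
    intro a ha j k
    have e : LinearMap.proj j ∘ₗ (-a) ∘ₗ LinearMap.single F (fun j => S.P (Y j)) k =
        -(LinearMap.proj j ∘ₗ a ∘ₗ LinearMap.single F (fun j => S.P (Y j)) k) := by
      ext x; rfl
    rw [e]
    exact (S.C _ _ _).neg_mem (ha j k)

variable {S Y}

lemma mem_Mat {s t : ι → ℤ} {a : Module.End F (∀ j, S.P (Y j))} :
    a ∈ Mat S Y s t ↔ ∀ j k, LinearMap.proj j ∘ₗ a ∘ₗ
      LinearMap.single F (fun j => S.P (Y j)) k ∈ S.C (Y k) (Y j) (s k - t j) := Iff.rfl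

lemma Mat_smul {s t : ι → ℤ} {a : Module.End F (∀ j, S.P (Y j))} (ha : a ∈ Mat S Y s t) (q : ℚ) :
    (q : F) • a ∈ Mat S Y s t := by
  intro j k
  have e : LinearMap.proj j ∘ₗ ((q : F) • a) ∘ₗ LinearMap.single F (fun j => S.P (Y j)) k =
      (q : F) • (LinearMap.proj j ∘ₗ a ∘ₗ LinearMap.single F (fun j => S.P (Y j)) k) := by
    ext x; rfl
  rw [e]
  exact S.smul _ _ _ q _ (ha j k)

variable [Fintype ι]

lemma Mat_mul {s t w : ι → ℤ} {a b : Module.End F (∀ j, S.P (Y j))} (ha : a ∈ Mat S Y s t)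
    (hb : b ∈ Mat S Y t w) : b * a ∈ Mat S Y s w := by
  intro j k
  have e : LinearMap.proj j ∘ₗ (b * a) ∘ₗ LinearMap.single F (fun j => S.P (Y j)) k =
      ∑ l, (LinearMap.proj j ∘ₗ b ∘ₗ LinearMap.single F (fun j => S.P (Y j)) l) ∘ₗ
        (LinearMap.proj l ∘ₗ a ∘ₗ LinearMap.single F (fun j => S.P (Y j)) k) := by
    apply LinearMap.ext
    intro x
    have h1 : a (LinearMap.single F (fun j => S.P (Y j)) k x) =
        ∑ l, LinearMap.single F (fun j => S.P (Y j)) l
          (a (LinearMap.single F (fun j => S.P (Y j)) k x) l) :=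
      (Finset.univ_sum_single _).symm
    rw [LinearMap.sum_apply]
    show (b (a (LinearMap.single F (fun j => S.P (Y j)) k x))) j = _
    conv_lhs => rw [h1]
    rw [map_sum, Finset.sum_apply]
    rfl
  rw [e]
  refine sum_mem fun l _ => ?_
  have := S.comp _ _ _ _ _ _ (ha l k) _ (hb j l)
  have e2 : s k - t l + (t l - w j) = s k - w j := by ring
  rwa [e2] at this

lemma trace_Mat [CharZero F] {s : ι → ℤ} {a : Module.End F (∀ j, S.P (Y j))} (ha : a ∈ Mat S Y s s)
    (hrat : ∀ j, ∀ f ∈ S.C (Y j) (Y j) 0, ∃ q : ℚ, LinearMap.trace F _ f = (q : F)) :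
    ∃ q : ℚ, LinearMap.trace F _ a = (q : F) := by
  have h1 : ∀ j, ∃ q : ℚ, LinearMap.trace F _ (LinearMap.proj j ∘ₗ a ∘ₗ
      LinearMap.single F (fun j => S.P (Y j)) j) = (q : F) := by
    intro j
    apply hrat
    have := ha j j
    rwa [sub_self] at this
  choose q hq using h1
  refine ⟨∑ j, q j, ?_⟩
  have e : a = ∑ j, (a ∘ₗ LinearMap.single F (fun j => S.P (Y j)) j) ∘ₗ
      (LinearMap.proj j : (∀ j, S.P (Y j)) →ₗ[F] S.P (Y j)) := by
    apply LinearMap.ext
    intro x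
    rw [LinearMap.sum_apply]
    conv_lhs => rw [← Finset.univ_sum_single x, map_sum]
    rfl
  have h2 : LinearMap.trace F (∀ j, S.P (Y j)) a = ∑ j, LinearMap.trace F (∀ j, S.P (Y j))
      ((a ∘ₗ LinearMap.single F (fun j => S.P (Y j)) j) ∘ₗ
      (LinearMap.proj j : (∀ j, S.P (Y j)) →ₗ[F] S.P (Y j))) := by
    rw [← map_sum, ← e]
  have h3 : ∀ j, LinearMap.trace F (∀ j, S.P (Y j))
      ((a ∘ₗ LinearMap.single F (fun j => S.P (Y j)) j) ∘ₗ
      (LinearMap.proj j : (∀ j, S.P (Y j)) →ₗ[F] S.P (Y j))) = (q j : F) := by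
    intro j
    rw [← hq j]
    exact LinearMap.trace_comp_comm' (LinearMap.proj j : (∀ j, S.P (Y j)) →ₗ[F] S.P (Y j))
      (a ∘ₗ LinearMap.single F (fun j => S.P (Y j)) j)
  rw [h2]
  push_cast
  exact Fintype.sum_congr _ _ h3

lemma num_Mat {s t : ι → ℤ} {p : Module.End F (∀ j, S.P (Y j))} (hp : p ∈ Mat S Y s t)
    (hnum : ∀ j k r, ∀ f ∈ S.C (Y k) (Y j) r,
      (∀ h ∈ S.C (Y j) (Y k) (-r), LinearMap.trace F _ (h ∘ₗ f) = 0) → f = 0)
    (h0 : ∀ h ∈ Mat S Y t s, LinearMap.trace F _ (h * p) = 0) : p = 0 := by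
  have key : ∀ j k, LinearMap.proj j ∘ₗ p ∘ₗ LinearMap.single F (fun j => S.P (Y j)) k = 0 := by
    intro j k
    apply hnum j k _ _ (hp j k)
    intro h hh
    have hmem : LinearMap.single F (fun j => S.P (Y j)) k ∘ₗ h ∘ₗ
        (LinearMap.proj j : (∀ j, S.P (Y j)) →ₗ[F] S.P (Y j)) ∈ Mat S Y t s := by
      intro k' j'
      by_cases hk : k' = k
      · subst hk
        by_cases hj : j' = j
        · subst hj
          have e : LinearMap.proj k' ∘ₗ (LinearMap.single F (fun j => S.P (Y j)) k' ∘ₗ h ∘ₗ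
              (LinearMap.proj j' : (∀ j, S.P (Y j)) →ₗ[F] S.P (Y j'))) ∘ₗ
              LinearMap.single F (fun j => S.P (Y j)) j' = h := by
            apply LinearMap.ext
            intro x
            simp
          rw [e]
          have e2 : t j' - s k' = -(s k' - t j') := by ring
          rw [e2]; exact hh
        · have e : LinearMap.proj k' ∘ₗ (LinearMap.single F (fun j => S.P (Y j)) k' ∘ₗ h ∘ₗ
              (LinearMap.proj j : (∀ j, S.P (Y j)) →ₗ[F] S.P (Y j))) ∘ₗ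
              LinearMap.single F (fun j => S.P (Y j)) j' = 0 := by
            apply LinearMap.ext
            intro x
            simp [Pi.single_eq_of_ne (Ne.symm hj)]
          rw [e]; exact (S.C _ _ _).zero_mem
      · have e : LinearMap.proj k' ∘ₗ (LinearMap.single F (fun j => S.P (Y j)) k ∘ₗ h ∘ₗ
            (LinearMap.proj j : (∀ j, S.P (Y j)) →ₗ[F] S.P (Y j))) ∘ₗ
            LinearMap.single F (fun j => S.P (Y j)) j' = 0 := by
          apply LinearMap.ext
          intro x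
          simp [Pi.single_eq_of_ne hk]
        rw [e]; exact (S.C _ _ _).zero_mem
    have h1 := h0 _ hmem
    have h2 : LinearMap.trace F _ ((LinearMap.single F (fun j => S.P (Y j)) k ∘ₗ h ∘ₗ
        (LinearMap.proj j : (∀ j, S.P (Y j)) →ₗ[F] S.P (Y j))) * p) =
        LinearMap.trace F _ (h ∘ₗ LinearMap.proj j ∘ₗ p ∘ₗ
          LinearMap.single F (fun j => S.P (Y j)) k) := by
      exact LinearMap.trace_comp_comm' (h ∘ₗ (LinearMap.proj j : (∀ j, S.P (Y j)) →ₗ[F] S.P (Y j)) ∘ₗ p)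
        (LinearMap.single F (fun j => S.P (Y j)) k)
    rw [h2] at h1
    exact h1
  apply LinearMap.ext
  intro x
  rw [LinearMap.zero_apply, ← Finset.univ_sum_single x, map_sum]
  refine Finset.sum_eq_zero fun k _ => ?_
  funext j
  exact LinearMap.congr_fun (key j k) (x k)

end Matrices

/-- The main lemma: for finitely many algebraic maps `g j : Y j → X` with adjoints `g' j`, there are
algebraic maps `v j k : Y k → Y j` such that `∑ g j v j k g' k` is the identity on the sum of the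
images of the `g j`, modulo the orthogonal. -/
theorem exists_inverse [CharZero F] {ι : Type} [Fintype ι] [DecidableEq ι] (X : S.Obj)
    (Y : ι → S.Obj) (r d : ι → ℤ)
    (g : ∀ j, S.P (Y j) →ₗ[F] S.P X) (g' : ∀ j, S.P X →ₗ[F] S.P (Y j))
    (hg : ∀ j, g j ∈ S.C (Y j) X (r j)) (hg' : ∀ j, g' j ∈ S.C X (Y j) (d j))
    (B : S.P X →ₗ[F] S.P X →ₗ[F] F) (b : ∀ j, S.P (Y j) →ₗ[F] S.P (Y j) →ₗ[F] F)
    (hadj : ∀ j x y, B (g j x) y = b j x (g' j y))
    (hrat : ∀ j, ∀ f ∈ S.C (Y j) (Y j) 0, ∃ q : ℚ, LinearMap.trace F _ f = (q : F))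
    (hnum : ∀ j k t, ∀ f ∈ S.C (Y k) (Y j) t,
      (∀ h ∈ S.C (Y j) (Y k) (-t), LinearMap.trace F _ (h ∘ₗ f) = 0) → f = 0) :
    ∃ v : ∀ j k, S.P (Y k) →ₗ[F] S.P (Y j), (∀ j k, v j k ∈ S.C (Y k) (Y j) (-d k - r j)) ∧
      ∀ x ∈ ⨆ j, LinearMap.range (g j), ∀ y ∈ ⨆ j, LinearMap.range (g j),
        B y (∑ j, ∑ k, g j (v j k (g' k x)) - x) = 0 := by
  -- the total map and its adjoint
  let V := ∀ j, S.P (Y j)
  let G : V →ₗ[F] S.P X := ∑ j, g j ∘ₗ LinearMap.proj j
  let G' : S.P X →ₗ[F] V := LinearMap.pi g'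
  have hG : ∀ x : V, G x = ∑ j, g j (x j) := fun x => by
    simp only [G, LinearMap.sum_apply]
    rfl
  have hq : G' ∘ₗ G ∈ Mat S Y r (fun j => -d j) := by
    intro j k
    have e : LinearMap.proj j ∘ₗ (G' ∘ₗ G) ∘ₗ LinearMap.single F (fun j => S.P (Y j)) k =
        g' j ∘ₗ g k := by
      apply LinearMap.ext
      intro x
      show g' j (G (LinearMap.single F (fun j => S.P (Y j)) k x)) = g' j (g k x)
      congr 1
      rw [hG, Finset.sum_eq_single k]
      · simp
      · intro l _ hl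
        simp [Pi.single_eq_of_ne hl]
      · intro h; exact absurd (Finset.mem_univ k) h
    rw [e]
    have := S.comp _ _ _ _ _ _ (hg k) _ (hg' j)
    have e2 : r k + d j = r k - -d j := by ring
    rwa [e2] at this
  obtain ⟨v, hv, hvq⟩ := regular (Mat S Y (fun j => -d j) r) (G' ∘ₗ G)
    (fun c w hw => Mat_smul hw c)
    (fun w hw w' hw' => by
      have h1 := Mat_mul (S := S) (Y := Y) (Mat_mul hw' hq) hw
      rwa [← mul_assoc] at h1)
    (fun w hw => trace_Mat (Mat_mul hq hw) hrat)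
    (fun v hv h0 => by
      apply num_Mat (s := r) (t := fun j => -d j) _ hnum h0
      refine (Mat S Y r (fun j => -d j)).sub_mem hq ?_
      have h1 := Mat_mul (Mat_mul hq hv) hq
      rwa [← mul_assoc] at h1)
  refine ⟨fun j k => LinearMap.proj j ∘ₗ v ∘ₗ LinearMap.single F (fun j => S.P (Y j)) k,
    fun j k => hv j k, ?_⟩
  have hsum : ∀ x, ∑ j, ∑ k, g j ((LinearMap.proj j ∘ₗ v ∘ₗ
      LinearMap.single F (fun j => S.P (Y j)) k) (g' k x)) = G (v (G' x)) := by
    intro x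
    rw [hG]
    refine Fintype.sum_congr _ _ fun j => ?_
    rw [← map_sum]
    congr 1
    have h1 : G' x = ∑ k, LinearMap.single F (fun j => S.P (Y j)) k (g' k x) :=
      (Finset.univ_sum_single (G' x)).symm
    conv_rhs => rw [h1, map_sum, Finset.sum_apply]
    rfl
  have hrange : ∀ x ∈ ⨆ j, LinearMap.range (g j), ∃ m, G m = x := by
    intro x hx
    have hle : (⨆ j, LinearMap.range (g j)) ≤ LinearMap.range G := by
      apply iSup_le
      rintro j _ ⟨m, rfl⟩
      refine ⟨LinearMap.single F (fun j => S.P (Y j)) j m, ?_⟩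
      rw [hG, Finset.sum_eq_single j]
      · simp
      · intro l _ hl
        simp [Pi.single_eq_of_ne hl]
      · intro h; exact absurd (Finset.mem_univ j) h
    exact hle hx
  intro x hx y hy
  rw [hsum]
  obtain ⟨m, rfl⟩ := hrange x hx
  obtain ⟨n, rfl⟩ := hrange y hy
  have e1 : G' (G (v (G' (G m))) - G m) = 0 := by
    rw [map_sub, sub_eq_zero]
    exact LinearMap.congr_fun hvq m
  rw [hG n, map_sum, LinearMap.sum_apply]
  refine Finset.sum_eq_zero fun j _ => ?_
  rw [hadj]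
  have e2 : g' j (G (v (G' (G m))) - G m) = 0 := congrFun e1 j
  rw [e2, map_zero]

end Pool.Agent.Helper89.GEN
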