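import Pool.Agent.Helper89.GEN.Statement
import Pool.Agent.Helper89.GEN.Gen
import Pool.Agent.Helper17.Sign.Core

/-!
# Proof of the generation theorem
-/

namespace Pool.Agent.Helper89.GEN

open Polynomial Module Pool.Agent.Helper17.Sign

universe u v w

variable {F : Type u} [Field F] (M : Weil.{u, v, w} F)

/-- the product of the endomorphism algebras -/
abbrev EE (V : Super.{u, w} F) := Module.End F V.Ev × Module.End F V.Od

/-- the algebra of self-correspondences of degree `0` -/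
def selfCorr (X : M.Var) : Subring (EE (M.H X)) where
  carrier := {u | (show Hom (M.H X) (M.H X) from u) ∈ M.corr X X 0}
  mul_mem' := by
    intro a b ha hb
    have := M.comp_mem X X X 0 0 b hb a ha
    rw [add_zero] at this
    exact this
  one_mem' := M.id_mem X
  add_mem' := fun {a b} ha hb => (M.corr X X 0).add_mem ha hb
  zero_mem' := (M.corr X X 0).zero_mem
  neg_mem' := fun {a} ha => (M.corr X X 0).neg_mem ha

/-- its `F`-span -/
noncomputable def spanAlg (X : M.Var) : Subalgebra F (EE (M.H X)) :=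
  Algebra.adjoin F (selfCorr M X : Set (EE (M.H X)))

lemma mem_spanAlg (X : M.Var) (u : EE (M.H X)) :
    u ∈ spanAlg M X ↔ u ∈ Submodule.span F (selfCorr M X : Set (EE (M.H X))) := by
  rw [spanAlg, ← Subalgebra.mem_toSubmodule, Algebra.adjoin_eq_span]
  have h2 : Submonoid.closure (selfCorr M X : Set (EE (M.H X))) =
      (selfCorr M X).toSubmonoid := Submonoid.closure_eq ((selfCorr M X).toSubmonoid)
  rw [h2]
  rfl

lemma factor_mem (X : M.Var) {w : Hom (M.H X) (M.H X)} (hw : w ∈ Factor M X) :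
    (show EE (M.H X) from w) ∈ spanAlg M X ∧
      (show EE (M.H X) from w) * par ∈ spanAlg M X := by
  let T : Submodule F (EE (M.H X)) := (Subalgebra.toSubmodule (spanAlg M X)) ⊓
      (Subalgebra.toSubmodule (spanAlg M X)).comap (LinearMap.mulRight F par)
  have key : Factor M X ≤ (show Submodule F (Hom (M.H X) (M.H X)) from T) := by
    rw [Factor, Submodule.span_le]
    rintro u ⟨Y, r, hY, f, hf, g, hg, rfl⟩
    have h1 := M.comp_mem X Y X r (-r) f hf g hg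
    rw [add_neg_cancel] at h1
    have h1' : ((g.1 ∘ₗ f.1, g.2 ∘ₗ f.2) : EE (M.H X)) ∈ spanAlg M X :=
      Algebra.subset_adjoin h1
    refine ⟨h1', ?_⟩
    -- (g ∘ (2 π⁺ - 1) ∘ f)
    have h2 := M.comp_mem Y Y X 0 (-r) _ hY g hg
    have h3 := M.comp_mem X Y X r (0 + -r) f hf _ h2
    have h4 : r + (0 + -r) = 0 := by ring
    rw [h4] at h3
    have h3' : ((g.1 ∘ₗ f.1, 0) : EE (M.H X)) ∈ spanAlg M X := by
      apply Algebra.subset_adjoin
      have e : ((g.1 ∘ₗ LinearMap.id) ∘ₗ f.1, (g.2 ∘ₗ (0 : (M.H Y).Od →ₗ[F] (M.H Y).Od)) ∘ₗ f.2) =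
          ((g.1 ∘ₗ f.1, 0) : EE (M.H X)) := by
        simp
      rw [← e]; exact h3
    show ((g.1 ∘ₗ f.1, g.2 ∘ₗ f.2) : EE (M.H X)) * par ∈ spanAlg M X
    have e : ((g.1 ∘ₗ f.1, g.2 ∘ₗ f.2) : EE (M.H X)) * par =
        (2 : F) • ((g.1 ∘ₗ f.1, 0) : EE (M.H X)) - ((g.1 ∘ₗ f.1, g.2 ∘ₗ f.2) : EE (M.H X)) := by
      ext1
      · simp only [par, Prod.fst_mul, mul_one, Prod.fst_sub, Prod.smul_fst]
        rw [two_smul]; abel
      · simp [par]
    rw [e]
    exact (spanAlg M X).sub_mem ((spanAlg M X).smul_mem h3' _) h1'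
  exact key hw

lemma descend [CharZero F] (X : M.Var)
    (h : ((1, 0) : EE (M.H X)) ∈ spanAlg M X) : CPlus M X := by
  rw [mem_spanAlg] at h
  exact proj_mem_of_span (selfCorr M X) (fun q u hu => M.smul_mem X X 0 q u hu)
    (fun u hu => M.str_rat X u hu) h


/-! ### the odd part -/

/-- stability extends to the span -/
lemma stable_Od (X : M.Var) {S : Submodule F (M.H X).Od}
    (hst : ∀ u ∈ M.corr X X 0, ∀ x ∈ S, u.2 x ∈ S) :
    ∀ u ∈ spanAlg M X, ∀ x ∈ S, u.2 x ∈ S := by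
  intro u hu
  rw [mem_spanAlg] at hu
  induction hu using Submodule.span_induction with
  | mem u hu => exact hst u hu
  | zero => intro x _; exact S.zero_mem
  | add a b _ _ ha hb => intro x hx; exact S.add_mem (ha x hx) (hb x hx)
  | smul c a _ ha => intro x hx; exact S.smul_mem c (ha x hx)

/-- the odd parts of the correspondences -/
def sysOd : Sys.{u, v, w} F where
  Obj := M.Var
  P A := (M.H A).Od
  C A B r :=
    { carrier := {φ | ∃ f ∈ M.corr A B r, f.2 = φ}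
      add_mem' := by
        rintro _ _ ⟨f, hf, rfl⟩ ⟨g, hg, rfl⟩
        exact ⟨f + g, (M.corr A B r).add_mem hf hg, rfl⟩
      zero_mem' := ⟨0, (M.corr A B r).zero_mem, rfl⟩
      neg_mem' := by
        rintro _ ⟨f, hf, rfl⟩
        exact ⟨-f, (M.corr A B r).neg_mem hf, rfl⟩ }
  smul := by
    rintro A B r q _ ⟨f, hf, rfl⟩
    exact ⟨(q : F) • f, M.smul_mem A B r q f hf, rfl⟩
  comp := by
    rintro A B D r s _ ⟨f, hf, rfl⟩ _ ⟨g, hg, rfl⟩
    exact ⟨g.comp f, M.comp_mem A B D r s f hf g hg, rfl⟩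

lemma trace_ratOd [CharZero F] {Y : M.Var} (hY : CPlus M Y) {f : Hom (M.H Y) (M.H Y)}
    (hf : f ∈ M.corr Y Y 0) : ∃ q : ℚ, LinearMap.trace F (M.H Y).Od f.2 = (q : F) := by
  obtain ⟨a, ha⟩ := M.str_rat Y f hf
  obtain ⟨b, hb⟩ := M.str_rat Y (f.comp (Hom.evenProj (M.H Y))) (by
    have := M.comp_mem Y Y Y 0 0 _ hY f hf
    rwa [add_zero] at this)
  have hb' : LinearMap.trace F (M.H Y).Ev f.1 = (b : F) := by
    rw [← hb]
    show _ = LinearMap.trace F (M.H Y).Ev (f.1 ∘ₗ LinearMap.id) -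
      LinearMap.trace F (M.H Y).Od (f.2 ∘ₗ (0 : (M.H Y).Od →ₗ[F] (M.H Y).Od))
    rw [LinearMap.comp_id, LinearMap.comp_zero, map_zero, sub_zero]
  have ha' : LinearMap.trace F (M.H Y).Ev f.1 - LinearMap.trace F (M.H Y).Od f.2 = (a : F) := ha
  refine ⟨b - a, ?_⟩
  push_cast
  rw [← hb', ← ha']
  abel


lemma exists_factorOd [CharZero F] {𝒴 : Set M.Var} (hC : ∀ Y ∈ 𝒴, CPlus M Y)
    (hN : OddHomNum M 𝒴) (X : M.Var) (S : Submodule F (M.H X).Od)
    (hst : ∀ u ∈ M.corr X X 0, ∀ x ∈ S, u.2 x ∈ S)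
    (hnd : ∀ y ∈ S, (∀ x ∈ S, M.odForm X x y = 0) → y = 0) (hS : S ≤ oddImage M 𝒴 X) :
    ∃ w ∈ Factor M X, ∀ x ∈ S, w.2 x = 0 → x = 0 := by
  classical
  obtain ⟨b, hb, hspan, hli⟩ := exists_linearIndependent F
    {x | ∃ Y ∈ 𝒴, ∃ r, ∃ f ∈ M.corr Y X r, ∃ y, f.2 y = x}
  have hfin : Finite b := hli.setFinite
  obtain ⟨n, ⟨e⟩⟩ := Finite.exists_equiv_fin b
  have hmem : ∀ j : Fin n, ∃ Y ∈ 𝒴, ∃ r, ∃ f ∈ M.corr Y X r, ∃ y, f.2 y = (e.symm j : (M.H X).Od) :=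
    fun j => hb (e.symm j).2
  choose Y hY r f hf y hy using hmem
  have htr : ∀ j, ∃ g ∈ M.corr X (Y j) (r j + M.dim (Y j) - M.dim X),
      ∀ x z, M.odForm X ((f j).2 x) z = M.odForm (Y j) x (g.2 z) := by
    intro j
    obtain ⟨g, hg, h1, h2⟩ := M.transpose (Y j) X (r j) (f j) (hf j)
    exact ⟨g, hg, h2⟩
  choose t ht hadj using htr
  obtain ⟨v, hv, hvx⟩ := exists_inverse (S := sysOd M) (X := X) Y r
    (fun j => r j + M.dim (Y j) - M.dim X) (fun j => (f j).2) (fun j => (t j).2)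
    (fun j => ⟨f j, hf j, rfl⟩) (fun j => ⟨t j, ht j, rfl⟩) (M.odForm X) (fun j => M.odForm (Y j))
    hadj
    (by
      rintro j _ ⟨φ, hφ, rfl⟩
      exact trace_ratOd M (hC _ (hY j)) hφ)
    (by
      rintro j k s _ ⟨φ, hφ, rfl⟩ h0
      exact hN (Y k) (hY k) (Y j) (hY j) s φ hφ (fun h hh => h0 _ ⟨h, hh, rfl⟩))
  choose φ hφ hφv using hv
  let w : Hom (M.H X) (M.H X) := ∑ j, ∑ k, ((f j).comp (φ j k)).comp (t k)
  have hw : w ∈ Factor M X := by
    refine sum_mem fun j _ => sum_mem fun k _ => Submodule.subset_span ?_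
    refine ⟨Y k, _, hC _ (hY k), t k, ht k, (f j).comp (φ j k), ?_, rfl⟩
    have := M.comp_mem _ _ _ _ _ _ (hφ j k) _ (hf j)
    have e2 : -(r k + (M.dim (Y k) : ℤ) - M.dim X) - r j + r j =
        -(r k + (M.dim (Y k) : ℤ) - M.dim X) := by ring
    rwa [e2] at this
  have hwx : ∀ x, w.2 x = ∑ j, ∑ k, (f j).2 (v j k ((t k).2 x)) := by
    intro x
    let L : Hom (M.H X) (M.H X) →ₗ[F] Module.End F (M.H X).Od := LinearMap.snd F _ _
    have h1 : w.2 = L w := rfl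
    rw [h1, map_sum, LinearMap.sum_apply]
    refine Finset.sum_congr rfl fun j _ => ?_
    rw [map_sum, LinearMap.sum_apply]
    refine Finset.sum_congr rfl fun k _ => ?_
    rw [← hφv j k]
    rfl
  refine ⟨w, hw, ?_⟩
  intro x hx h0
  have hle : oddImage M 𝒴 X ≤ ⨆ j, LinearMap.range (f j).2 := by
    rw [oddImage, ← hspan, Submodule.span_le]
    intro z hz
    have h1 : z = (f (e ⟨z, hz⟩)).2 (y (e ⟨z, hz⟩)) := by
      rw [hy, Equiv.symm_apply_apply]
    rw [h1]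
    exact (le_iSup (fun j => LinearMap.range (f j).2) (e ⟨z, hz⟩)) ⟨_, rfl⟩
  have hzS : w.2 x - x ∈ S :=
    S.sub_mem (stable_Od M X hst _ (factor_mem M X hw).1 x hx) hx
  have h2 : w.2 x - x = 0 := by
    apply hnd _ hzS
    intro z hz
    rw [hwx]
    exact hvx x (hle (hS hx)) z (hle (hS hz))
  rw [h0, zero_sub, neg_eq_zero] at h2
  exact h2

theorem cplus_of_coveredOd [CharZero F] {𝒴 : Set M.Var} (hC : ∀ Y ∈ 𝒴, CPlus M Y)
    (hN : OddHomNum M 𝒴) (X : M.Var) (h : OddCovered M 𝒴 X) : CPlus M X := by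
  obtain ⟨n, S, hsup, hS⟩ := h
  have h1 : ∀ i, ∃ w ∈ Factor M X, ∀ x ∈ S i, w.2 x = 0 → x = 0 := by
    intro i
    rcases (hS i).2 with h2 | ⟨h2, h3⟩
    · exact h2
    · exact exists_factorOd M hC hN X (S i) (hS i).1 h2 h3
  choose w hw hinj using h1
  exact descend M X (proj_of_cover_odd two_ne_zero (spanAlg M X) S hsup
    (fun i => stable_Od M X (hS i).1) w (fun i => (factor_mem M X (hw i)).1)
    (fun i => (factor_mem M X (hw i)).2) hinj)

theorem covered_of_cplusOd {X : M.Var} (𝒴 : Set M.Var) (h : CPlus M X) : OddCovered M 𝒴 X := by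
  refine ⟨1, fun _ => ⊤, by simp, fun i => ⟨fun _ _ _ _ => trivial, Or.inl ⟨Hom.id (M.H X), ?_,
    fun x _ hx => hx⟩⟩⟩
  apply Submodule.subset_span
  exact ⟨X, 0, h, _, M.id_mem X, _, by rw [neg_zero]; exact M.id_mem X, rfl⟩

theorem homNum_generatedOd {𝒴 : Set M.Var} (hN : OddHomNum M 𝒴) :
    OddHomNum M {X | oddImage M 𝒴 X = ⊤} := by
  intro X hX X' hX' r f hf h0
  have hX1 : oddImage M 𝒴 X = ⊤ := hX
  have hX1' : oddImage M 𝒴 X' = ⊤ := hX'
  have key : ∀ Y ∈ 𝒴, ∀ s, ∀ g ∈ M.corr Y X s, ∀ Y' ∈ 𝒴, ∀ s', ∀ g' ∈ M.corr Y' X' s',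
      ∀ y y', M.odForm X' (g'.2 y') (f.2 (g.2 y)) = 0 := by
    intro Y hY s g hg Y' hY' s' g' hg' y y'
    obtain ⟨g'', hg'', h1, h2⟩ := M.transpose Y' X' s' g' hg'
    have hadj : ∀ x z, M.odForm X' (g'.2 x) z = M.odForm Y' x (g''.2 z) := h2
    rw [hadj]
    have hm := M.comp_mem _ _ _ _ _ _ (M.comp_mem _ _ _ _ _ g hg f hf) g'' hg''
    have hz := hN Y hY Y' hY' _ _ hm (by
      intro h hh
      have hm2 := M.comp_mem _ _ _ _ _ _ (M.comp_mem _ _ _ _ _ g'' hg'' h hh) g hg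
      have e1 : s' + (M.dim Y' : ℤ) - M.dim X' + -(s + r + (s' + (M.dim Y' : ℤ) - M.dim X')) + s =
          -r := by ring
      rw [e1] at hm2
      have h3 := h0 _ hm2
      have e2 : LinearMap.trace F (M.H Y).Od (h.2 ∘ₗ (g''.comp (f.comp g)).2) =
          LinearMap.trace F (M.H X).Od ((g.comp (h.comp g'')).2 ∘ₗ f.2) := by
        exact LinearMap.trace_comp_comm' g.2 (h.2 ∘ₗ g''.2 ∘ₗ f.2)
      rw [e2]; exact h3)
    have e3 : (g''.comp (f.comp g)).2 y = 0 := by rw [hz, LinearMap.zero_apply]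
    have e4 : (g''.comp (f.comp g)).2 y = g''.2 (f.2 (g.2 y)) := rfl
    rw [e4] at e3
    rw [e3, map_zero]
  have key2 : ∀ Y ∈ 𝒴, ∀ s, ∀ g ∈ M.corr Y X s, ∀ y, f.2 (g.2 y) = 0 := by
    intro Y hY s g hg y
    apply M.od_nondeg X'
    intro x
    have hx : x ∈ oddImage M 𝒴 X' := by rw [hX1']; trivial
    rw [oddImage] at hx
    induction hx using Submodule.span_induction with
    | mem x hx =>
      obtain ⟨Y', hY', s', g', hg', y', rfl⟩ := hx
      exact key Y hY s g hg Y' hY' s' g' hg' y y'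
    | zero => rw [map_zero, LinearMap.zero_apply]
    | add a b _ _ ha hb => rw [map_add, LinearMap.add_apply, ha, hb, add_zero]
    | smul c a _ ha => rw [map_smul, LinearMap.smul_apply, ha, smul_zero]
  apply LinearMap.ext
  intro x
  rw [LinearMap.zero_apply]
  have hx : x ∈ oddImage M 𝒴 X := by rw [hX1]; trivial
  rw [oddImage] at hx
  induction hx using Submodule.span_induction with
  | mem x hx =>
    obtain ⟨Y, hY, s, g, hg, y, rfl⟩ := hx
    exact key2 Y hY s g hg y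
  | zero => rw [map_zero]
  | add a b _ _ ha hb => rw [map_add, ha, hb, add_zero]
  | smul c a _ ha => rw [map_smul, ha, smul_zero]


/-! ### the even part -/

/-- stability extends to the span -/
lemma stable_Ev (X : M.Var) {S : Submodule F (M.H X).Ev}
    (hst : ∀ u ∈ M.corr X X 0, ∀ x ∈ S, u.1 x ∈ S) :
    ∀ u ∈ spanAlg M X, ∀ x ∈ S, u.1 x ∈ S := by
  intro u hu
  rw [mem_spanAlg] at hu
  induction hu using Submodule.span_induction with
  | mem u hu => exact hst u hu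
  | zero => intro x _; exact S.zero_mem
  | add a b _ _ ha hb => intro x hx; exact S.add_mem (ha x hx) (hb x hx)
  | smul c a _ ha => intro x hx; exact S.smul_mem c (ha x hx)

/-- the even parts of the correspondences -/
def sysEv : Sys.{u, v, w} F where
  Obj := M.Var
  P A := (M.H A).Ev
  C A B r :=
    { carrier := {φ | ∃ f ∈ M.corr A B r, f.1 = φ}
      add_mem' := by
        rintro _ _ ⟨f, hf, rfl⟩ ⟨g, hg, rfl⟩
        exact ⟨f + g, (M.corr A B r).add_mem hf hg, rfl⟩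
      zero_mem' := ⟨0, (M.corr A B r).zero_mem, rfl⟩
      neg_mem' := by
        rintro _ ⟨f, hf, rfl⟩
        exact ⟨-f, (M.corr A B r).neg_mem hf, rfl⟩ }
  smul := by
    rintro A B r q _ ⟨f, hf, rfl⟩
    exact ⟨(q : F) • f, M.smul_mem A B r q f hf, rfl⟩
  comp := by
    rintro A B D r s _ ⟨f, hf, rfl⟩ _ ⟨g, hg, rfl⟩
    exact ⟨g.comp f, M.comp_mem A B D r s f hf g hg, rfl⟩

lemma trace_ratEv [CharZero F] {Y : M.Var} (hY : CPlus M Y) {f : Hom (M.H Y) (M.H Y)}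
    (hf : f ∈ M.corr Y Y 0) : ∃ q : ℚ, LinearMap.trace F (M.H Y).Ev f.1 = (q : F) := by
  obtain ⟨a, ha⟩ := M.str_rat Y f hf
  obtain ⟨b, hb⟩ := M.str_rat Y (f.comp (Hom.evenProj (M.H Y))) (by
    have := M.comp_mem Y Y Y 0 0 _ hY f hf
    rwa [add_zero] at this)
  have hb' : LinearMap.trace F (M.H Y).Ev f.1 = (b : F) := by
    rw [← hb]
    show _ = LinearMap.trace F (M.H Y).Ev (f.1 ∘ₗ LinearMap.id) -
      LinearMap.trace F (M.H Y).Od (f.2 ∘ₗ (0 : (M.H Y).Od →ₗ[F] (M.H Y).Od))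
    rw [LinearMap.comp_id, LinearMap.comp_zero, map_zero, sub_zero]
  have ha' : LinearMap.trace F (M.H Y).Ev f.1 - LinearMap.trace F (M.H Y).Od f.2 = (a : F) := ha
  exact ⟨b, hb'⟩


lemma exists_factorEv [CharZero F] {𝒴 : Set M.Var} (hC : ∀ Y ∈ 𝒴, CPlus M Y)
    (hN : EvenHomNum M 𝒴) (X : M.Var) (S : Submodule F (M.H X).Ev)
    (hst : ∀ u ∈ M.corr X X 0, ∀ x ∈ S, u.1 x ∈ S)
    (hnd : ∀ y ∈ S, (∀ x ∈ S, M.evForm X x y = 0) → y = 0) (hS : S ≤ evenImage M 𝒴 X) :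
    ∃ w ∈ Factor M X, ∀ x ∈ S, w.1 x = 0 → x = 0 := by
  classical
  obtain ⟨b, hb, hspan, hli⟩ := exists_linearIndependent F
    {x | ∃ Y ∈ 𝒴, ∃ r, ∃ f ∈ M.corr Y X r, ∃ y, f.1 y = x}
  have hfin : Finite b := hli.setFinite
  obtain ⟨n, ⟨e⟩⟩ := Finite.exists_equiv_fin b
  have hmem : ∀ j : Fin n, ∃ Y ∈ 𝒴, ∃ r, ∃ f ∈ M.corr Y X r, ∃ y, f.1 y = (e.symm j : (M.H X).Ev) :=
    fun j => hb (e.symm j).2
  choose Y hY r f hf y hy using hmem
  have htr : ∀ j, ∃ g ∈ M.corr X (Y j) (r j + M.dim (Y j) - M.dim X),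
      ∀ x z, M.evForm X ((f j).1 x) z = M.evForm (Y j) x (g.1 z) := by
    intro j
    obtain ⟨g, hg, h1, h2⟩ := M.transpose (Y j) X (r j) (f j) (hf j)
    exact ⟨g, hg, h1⟩
  choose t ht hadj using htr
  obtain ⟨v, hv, hvx⟩ := exists_inverse (S := sysEv M) (X := X) Y r
    (fun j => r j + M.dim (Y j) - M.dim X) (fun j => (f j).1) (fun j => (t j).1)
    (fun j => ⟨f j, hf j, rfl⟩) (fun j => ⟨t j, ht j, rfl⟩) (M.evForm X) (fun j => M.evForm (Y j))
    hadj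
    (by
      rintro j _ ⟨φ, hφ, rfl⟩
      exact trace_ratEv M (hC _ (hY j)) hφ)
    (by
      rintro j k s _ ⟨φ, hφ, rfl⟩ h0
      exact hN (Y k) (hY k) (Y j) (hY j) s φ hφ (fun h hh => h0 _ ⟨h, hh, rfl⟩))
  choose φ hφ hφv using hv
  let w : Hom (M.H X) (M.H X) := ∑ j, ∑ k, ((f j).comp (φ j k)).comp (t k)
  have hw : w ∈ Factor M X := by
    refine sum_mem fun j _ => sum_mem fun k _ => Submodule.subset_span ?_
    refine ⟨Y k, _, hC _ (hY k), t k, ht k, (f j).comp (φ j k), ?_, rfl⟩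
    have := M.comp_mem _ _ _ _ _ _ (hφ j k) _ (hf j)
    have e2 : -(r k + (M.dim (Y k) : ℤ) - M.dim X) - r j + r j =
        -(r k + (M.dim (Y k) : ℤ) - M.dim X) := by ring
    rwa [e2] at this
  have hwx : ∀ x, w.1 x = ∑ j, ∑ k, (f j).1 (v j k ((t k).1 x)) := by
    intro x
    let L : Hom (M.H X) (M.H X) →ₗ[F] Module.End F (M.H X).Ev := LinearMap.fst F _ _
    have h1 : w.1 = L w := rfl
    rw [h1, map_sum, LinearMap.sum_apply]
    refine Finset.sum_congr rfl fun j _ => ?_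
    rw [map_sum, LinearMap.sum_apply]
    refine Finset.sum_congr rfl fun k _ => ?_
    rw [← hφv j k]
    rfl
  refine ⟨w, hw, ?_⟩
  intro x hx h0
  have hle : evenImage M 𝒴 X ≤ ⨆ j, LinearMap.range (f j).1 := by
    rw [evenImage, ← hspan, Submodule.span_le]
    intro z hz
    have h1 : z = (f (e ⟨z, hz⟩)).1 (y (e ⟨z, hz⟩)) := by
      rw [hy, Equiv.symm_apply_apply]
    rw [h1]
    exact (le_iSup (fun j => LinearMap.range (f j).1) (e ⟨z, hz⟩)) ⟨_, rfl⟩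
  have hzS : w.1 x - x ∈ S :=
    S.sub_mem (stable_Ev M X hst _ (factor_mem M X hw).1 x hx) hx
  have h2 : w.1 x - x = 0 := by
    apply hnd _ hzS
    intro z hz
    rw [hwx]
    exact hvx x (hle (hS hx)) z (hle (hS hz))
  rw [h0, zero_sub, neg_eq_zero] at h2
  exact h2

theorem cplus_of_coveredEv [CharZero F] {𝒴 : Set M.Var} (hC : ∀ Y ∈ 𝒴, CPlus M Y)
    (hN : EvenHomNum M 𝒴) (X : M.Var) (h : EvenCovered M 𝒴 X) : CPlus M X := by
  obtain ⟨n, S, hsup, hS⟩ := h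
  have h1 : ∀ i, ∃ w ∈ Factor M X, ∀ x ∈ S i, w.1 x = 0 → x = 0 := by
    intro i
    rcases (hS i).2 with h2 | ⟨h2, h3⟩
    · exact h2
    · exact exists_factorEv M hC hN X (S i) (hS i).1 h2 h3
  choose w hw hinj using h1
  exact descend M X (proj_of_cover_even two_ne_zero (spanAlg M X) S hsup
    (fun i => stable_Ev M X (hS i).1) w (fun i => (factor_mem M X (hw i)).1)
    (fun i => (factor_mem M X (hw i)).2) hinj)

theorem covered_of_cplusEv {X : M.Var} (𝒴 : Set M.Var) (h : CPlus M X) : EvenCovered M 𝒴 X := by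
  refine ⟨1, fun _ => ⊤, by simp, fun i => ⟨fun _ _ _ _ => trivial, Or.inl ⟨Hom.id (M.H X), ?_,
    fun x _ hx => hx⟩⟩⟩
  apply Submodule.subset_span
  exact ⟨X, 0, h, _, M.id_mem X, _, by rw [neg_zero]; exact M.id_mem X, rfl⟩

theorem homNum_generatedEv {𝒴 : Set M.Var} (hN : EvenHomNum M 𝒴) :
    EvenHomNum M {X | evenImage M 𝒴 X = ⊤} := by
  intro X hX X' hX' r f hf h0
  have hX1 : evenImage M 𝒴 X = ⊤ := hX
  have hX1' : evenImage M 𝒴 X' = ⊤ := hX'
  have key : ∀ Y ∈ 𝒴, ∀ s, ∀ g ∈ M.corr Y X s, ∀ Y' ∈ 𝒴, ∀ s', ∀ g' ∈ M.corr Y' X' s',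
      ∀ y y', M.evForm X' (g'.1 y') (f.1 (g.1 y)) = 0 := by
    intro Y hY s g hg Y' hY' s' g' hg' y y'
    obtain ⟨g'', hg'', h1, h2⟩ := M.transpose Y' X' s' g' hg'
    have hadj : ∀ x z, M.evForm X' (g'.1 x) z = M.evForm Y' x (g''.1 z) := h1
    rw [hadj]
    have hm := M.comp_mem _ _ _ _ _ _ (M.comp_mem _ _ _ _ _ g hg f hf) g'' hg''
    have hz := hN Y hY Y' hY' _ _ hm (by
      intro h hh
      have hm2 := M.comp_mem _ _ _ _ _ _ (M.comp_mem _ _ _ _ _ g'' hg'' h hh) g hg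
      have e1 : s' + (M.dim Y' : ℤ) - M.dim X' + -(s + r + (s' + (M.dim Y' : ℤ) - M.dim X')) + s =
          -r := by ring
      rw [e1] at hm2
      have h3 := h0 _ hm2
      have e2 : LinearMap.trace F (M.H Y).Ev (h.1 ∘ₗ (g''.comp (f.comp g)).1) =
          LinearMap.trace F (M.H X).Ev ((g.comp (h.comp g'')).1 ∘ₗ f.1) := by
        exact LinearMap.trace_comp_comm' g.1 (h.1 ∘ₗ g''.1 ∘ₗ f.1)
      rw [e2]; exact h3)
    have e3 : (g''.comp (f.comp g)).1 y = 0 := by rw [hz, LinearMap.zero_apply]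
    have e4 : (g''.comp (f.comp g)).1 y = g''.1 (f.1 (g.1 y)) := rfl
    rw [e4] at e3
    rw [e3, map_zero]
  have key2 : ∀ Y ∈ 𝒴, ∀ s, ∀ g ∈ M.corr Y X s, ∀ y, f.1 (g.1 y) = 0 := by
    intro Y hY s g hg y
    apply M.ev_nondeg X'
    intro x
    have hx : x ∈ evenImage M 𝒴 X' := by rw [hX1']; trivial
    rw [evenImage] at hx
    induction hx using Submodule.span_induction with
    | mem x hx =>
      obtain ⟨Y', hY', s', g', hg', y', rfl⟩ := hx
      exact key Y hY s g hg Y' hY' s' g' hg' y y'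
    | zero => rw [map_zero, LinearMap.zero_apply]
    | add a b _ _ ha hb => rw [map_add, LinearMap.add_apply, ha, hb, add_zero]
    | smul c a _ ha => rw [map_smul, LinearMap.smul_apply, ha, smul_zero]
  apply LinearMap.ext
  intro x
  rw [LinearMap.zero_apply]
  have hx : x ∈ evenImage M 𝒴 X := by rw [hX1]; trivial
  rw [evenImage] at hx
  induction hx using Submodule.span_induction with
  | mem x hx =>
    obtain ⟨Y, hY, s, g, hg, y, rfl⟩ := hx
    exact key2 Y hY s g hg y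
  | zero => rw [map_zero]
  | add a b _ _ ha hb => rw [map_add, ha, hb, add_zero]
  | smul c a _ ha => rw [map_smul, ha, smul_zero]

end Pool.Agent.Helper89.GEN
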