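import Pool.Agent.Helper89.GEN.Defs
import Pool.Agent.Helper89.GEN.Main

/-!
# From the parity version to the pair version
-/

namespace Pool.Agent.Helper89.GEN.Sign

open Module

universe u v w

variable {F : Type u} [Field F] {Var : Type v} {H : Var → Parity → Type w}
  [∀ X e, AddCommGroup (H X e)] [∀ X e, Module F (H X e)] (M : Sign.Weil F H)

/-- a pair of linear maps as a family indexed by the parity -/
def unpair {X Y : Var} (f : (H X .even →ₗ[F] H Y .even) × (H X .odd →ₗ[F] H Y .odd)) :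
    Action F H X Y
  | .even => f.1
  | .odd => f.2

/-- the pair -/
def pair {X Y : Var} (f : Action F H X Y) :
    (H X .even →ₗ[F] H Y .even) × (H X .odd →ₗ[F] H Y .odd) := (f .even, f .odd)

lemma unpair_pair {X Y : Var} (f : Action F H X Y) : unpair (pair f) = f := by
  funext e; cases e <;> rfl

/-- the form as a bilinear map -/
def bil (X : Var) (e : Parity) : H X e →ₗ[F] H X e →ₗ[F] F :=
  LinearMap.mk₂ F (M.form X e) (M.isDuality.add_left X e) (M.isDuality.smul_left X e)
    (M.isDuality.add_right X e) (M.isDuality.smul_right X e)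

variable [∀ X e, FiniteDimensional F (H X e)]

/-- the pair version -/
def toPair : GEN.Weil.{u, v, w} F where
  Var := Var
  dim := M.dim
  H X := { Ev := H X .even, Od := H X .odd }
  evForm X := bil M X .even
  odForm X := bil M X .odd
  ev_nondeg X y h := M.isDuality.nondeg X .even y h
  od_nondeg X y h := M.isDuality.nondeg X .odd y h
  corr X Y r :=
    { carrier := {f | unpair (X := X) (Y := Y) f ∈ M.corr X Y r}
      add_mem' := by
        intro a b ha hb
        have := M.isCorr.add_mem X Y r _ ha _ hb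
        have e1 : unpair (X := X) (Y := Y) (a + b) = unpair a + unpair b := by
          funext e; cases e <;> rfl
        show unpair (X := X) (Y := Y) (a + b) ∈ M.corr X Y r
        rw [e1]; exact this
      zero_mem' := by
        have := M.isCorr.zero_mem X Y r
        have e1 : unpair (F := F) (H := H) (X := X) (Y := Y) 0 = 0 := by
          funext e; cases e <;> rfl
        show unpair (X := X) (Y := Y) 0 ∈ M.corr X Y r
        rw [e1]; exact this
      neg_mem' := by
        intro a ha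
        have := M.isCorr.smul_mem X Y r (-1) _ ha
        have e1 : unpair (X := X) (Y := Y) (-a) = (((-1 : ℚ) : F)) • unpair a := by
          have e2 : (((-1 : ℚ) : F)) = -1 := by push_cast; rfl
          rw [e2, neg_one_smul]
          funext e; cases e <;> rfl
        show unpair (X := X) (Y := Y) (-a) ∈ M.corr X Y r
        rw [e1]; exact this }
  smul_mem X Y r q f hf := by
    have := M.isCorr.smul_mem X Y r q _ hf
    have e1 : unpair (X := X) (Y := Y) ((q : F) • f) = (q : F) • unpair (X := X) (Y := Y) f := by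
      funext e; cases e <;> rfl
    show unpair (X := X) (Y := Y) ((q : F) • f) ∈ M.corr X Y r
    rw [e1]; exact this
  id_mem X := by
    have := M.isCorr.id_mem X
    have e1 : unpair (X := X) (Y := X) (LinearMap.id, LinearMap.id) =
        (fun _ => LinearMap.id : Action F H X X) := by
      funext e; cases e <;> rfl
    show unpair (X := X) (Y := X) (LinearMap.id, LinearMap.id) ∈ M.corr X X 0
    rw [e1]; exact this
  comp_mem X Y Z r s f hf g hg := by
    have := M.isCorr.comp_mem X Y Z r s _ hf _ hg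
    have e1 : unpair (X := X) (Y := Z) (g.1 ∘ₗ f.1, g.2 ∘ₗ f.2) =
        comp (unpair (X := Y) (Y := Z) g) (unpair (X := X) (Y := Y) f) := by
      funext e; cases e <;> rfl
    show unpair (X := X) (Y := Z) (g.1 ∘ₗ f.1, g.2 ∘ₗ f.2) ∈ M.corr X Z (r + s)
    rw [e1]; exact this
  transpose X Y r f hf := by
    obtain ⟨g, hg, h⟩ := M.isCorr.transpose X Y r _ hf
    refine ⟨pair g, ?_, fun x y => h .even x y, fun x y => h .odd x y⟩
    show unpair (pair g) ∈ M.corr Y X (r + M.dim X - M.dim Y)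
    rw [unpair_pair]; exact hg
  str_rat X f hf := M.isCorr.trace_rat X _ hf

lemma mem_toPair {X Y : Var} {r : ℤ} {f : Action F H X Y} (hf : f ∈ M.corr X Y r) :
    (show GEN.Hom ((toPair M).H X) ((toPair M).H Y) from pair f) ∈ (toPair M).corr X Y r := by
  show unpair (pair f) ∈ M.corr X Y r
  rw [unpair_pair]; exact hf

lemma cplus_iff (X : Var) : GEN.CPlus (toPair M) X ↔ CPlus M X := by
  have e1 : unpair (X := X) (Y := X) (LinearMap.id, 0) = evenProj F H X := by
    funext e; cases e <;> rfl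
  show unpair (X := X) (Y := X) (LinearMap.id, 0) ∈ M.corr X X 0 ↔ _
  rw [e1]; exact Iff.rfl

lemma homNum_odd (𝒴 : Set Var) : GEN.OddHomNum (toPair M) 𝒴 ↔ HomNum M .odd 𝒴 := by
  constructor
  · intro h Y hY Y' hY' r f hf h0
    exact h Y hY Y' hY' r (pair f) (mem_toPair M hf) (fun g hg => h0 _ hg)
  · intro h Y hY Y' hY' r f hf h0
    exact h Y hY Y' hY' r _ hf (fun g hg => h0 (pair g) (mem_toPair M hg))

lemma homNum_even (𝒴 : Set Var) : GEN.EvenHomNum (toPair M) 𝒴 ↔ HomNum M .even 𝒴 := by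
  constructor
  · intro h Y hY Y' hY' r f hf h0
    exact h Y hY Y' hY' r (pair f) (mem_toPair M hf) (fun g hg => h0 _ hg)
  · intro h Y hY Y' hY' r f hf h0
    exact h Y hY Y' hY' r _ hf (fun g hg => h0 (pair g) (mem_toPair M hg))

lemma generated_odd (𝒴 : Set Var) (X : Var) :
    GEN.oddImage (toPair M) 𝒴 X = generated M .odd 𝒴 X := by
  unfold GEN.oddImage generated
  congr 1
  ext x
  constructor
  · rintro ⟨Y, hY, r, f, hf, y, rfl⟩
    exact ⟨Y, hY, r, _, hf, y, rfl⟩
  · rintro ⟨Y, hY, r, f, hf, y, rfl⟩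
    exact ⟨Y, hY, r, _, mem_toPair M hf, y, rfl⟩

lemma generated_even (𝒴 : Set Var) (X : Var) :
    GEN.evenImage (toPair M) 𝒴 X = generated M .even 𝒴 X := by
  unfold GEN.evenImage generated
  congr 1
  ext x
  constructor
  · rintro ⟨Y, hY, r, f, hf, y, rfl⟩
    exact ⟨Y, hY, r, _, hf, y, rfl⟩
  · rintro ⟨Y, hY, r, f, hf, y, rfl⟩
    exact ⟨Y, hY, r, _, mem_toPair M hf, y, rfl⟩

/-- `pair` as a linear map -/
def pairL (X : Var) : Action F H X X →ₗ[F] GEN.Hom ((toPair M).H X) ((toPair M).H X) where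
  toFun f := pair f
  map_add' _ _ := rfl
  map_smul' _ _ := rfl

lemma factor_pair {X : Var} {w : Action F H X X} (hw : w ∈ Factor M X) :
    pairL M X w ∈ GEN.Factor (toPair M) X := by
  have key : Factor M X ≤ (GEN.Factor (toPair M) X).comap (pairL M X) := by
    rw [Factor, Submodule.span_le]
    rintro u ⟨Y, r, hY, f, hf, g, hg, rfl⟩
    apply Submodule.subset_span
    exact ⟨Y, r, (cplus_iff M Y).2 hY, pair f, mem_toPair M hf, pair g, mem_toPair M hg, rfl⟩
  exact key hw

lemma covered_odd {𝒴 : Set Var} {X : Var} (h : Covered M .odd 𝒴 X) :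
    GEN.OddCovered (toPair M) 𝒴 X := by
  obtain ⟨n, S, hsup, hS⟩ := h
  refine ⟨n, S, hsup, fun i => ⟨fun u hu x hx => (hS i).1 _ hu x hx, ?_⟩⟩
  rcases (hS i).2 with ⟨w, hw, hinj⟩ | ⟨h1, h2⟩
  · exact Or.inl ⟨_, factor_pair M hw, hinj⟩
  · refine Or.inr ⟨h2, ?_⟩
    rw [generated_odd]; exact h1

lemma covered_even {𝒴 : Set Var} {X : Var} (h : Covered M .even 𝒴 X) :
    GEN.EvenCovered (toPair M) 𝒴 X := by
  obtain ⟨n, S, hsup, hS⟩ := h
  refine ⟨n, S, hsup, fun i => ⟨fun u hu x hx => (hS i).1 _ hu x hx, ?_⟩⟩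
  rcases (hS i).2 with ⟨w, hw, hinj⟩ | ⟨h1, h2⟩
  · exact Or.inl ⟨_, factor_pair M hw, hinj⟩
  · refine Or.inr ⟨h2, ?_⟩
    rw [generated_even]; exact h1

theorem cplus_of_covered [CharZero F] (e : Parity) {𝒴 : Set Var} (hC : ∀ Y ∈ 𝒴, CPlus M Y)
    (hN : HomNum M e 𝒴) {X : Var} (h : Covered M e 𝒴 X) : CPlus M X := by
  rw [← cplus_iff]
  have hC' : ∀ Y ∈ 𝒴, GEN.CPlus (toPair M) Y := fun Y hY => (cplus_iff M Y).2 (hC Y hY)
  cases e with
  | even =>
    exact GEN.cplus_of_coveredEv (toPair M) hC' ((homNum_even M 𝒴).2 hN) X (covered_even M h)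
  | odd =>
    exact GEN.cplus_of_coveredOd (toPair M) hC' ((homNum_odd M 𝒴).2 hN) X (covered_odd M h)

omit [∀ X e, FiniteDimensional F (H X e)] in
theorem covered_of_cplus (e : Parity) (𝒴 : Set Var) {X : Var} (h : CPlus M X) :
    Covered M e 𝒴 X := by
  refine ⟨1, fun _ => ⊤, by simp, fun i => ⟨fun _ _ _ _ => trivial, Or.inl
    ⟨fun _ => LinearMap.id, ?_, fun x _ hx => hx⟩⟩⟩
  apply Submodule.subset_span
  exact ⟨X, 0, h, _, M.isCorr.id_mem X, _, by rw [neg_zero]; exact M.isCorr.id_mem X, rfl⟩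

omit [∀ X e, FiniteDimensional F (H X e)] in
theorem covered_of_generated (e : Parity) (𝒴 : Set Var) {X : Var}
    (h : generated M e 𝒴 X = ⊤) : Covered M e 𝒴 X := by
  refine ⟨1, fun _ => ⊤, by simp, fun i => ⟨fun _ _ _ _ => trivial, Or.inr ⟨?_, ?_⟩⟩⟩
  · rw [h]
  · intro y _ hy
    exact M.isDuality.nondeg X e y fun x => hy x trivial

theorem homNum_generated (e : Parity) {𝒴 : Set Var} (hN : HomNum M e 𝒴) :
    HomNum M e {X | generated M e 𝒴 X = ⊤} := by
  cases e with
  | even =>
    rw [← homNum_even]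
    have h := GEN.homNum_generatedEv (toPair M) ((homNum_even M 𝒴).2 hN)
    have e1 : {X | generated M .even 𝒴 X = ⊤} = {X | GEN.evenImage (toPair M) 𝒴 X = ⊤} := by
      ext X
      show _ = _ ↔ _ = _
      rw [generated_even]
      exact Iff.rfl
    rw [e1]; exact h
  | odd =>
    rw [← homNum_odd]
    have h := GEN.homNum_generatedOd (toPair M) ((homNum_odd M 𝒴).2 hN)
    have e1 : {X | generated M .odd 𝒴 X = ⊤} = {X | GEN.oddImage (toPair M) 𝒴 X = ⊤} := by
      ext X
      show _ = _ ↔ _ = _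
      rw [generated_odd]
      exact Iff.rfl
    rw [e1]; exact h

end Pool.Agent.Helper89.GEN.Sign
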