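import Mathlib

/-!
# A Weil cohomology, algebraic correspondences, generation of one parity

The structure `Weil` holds only data and formal properties which belong to the definition of a Weil
cohomology theory (finite dimensional even and odd cohomology, Poincaré duality) and of algebraic
correspondences (`ℚ`-spaces stable under composition and transposition, containing the diagonal,
whose alternating traces are intersection numbers). No geometric theorem is assumed.
-/

namespace Pool.Agent.Helper89.GEN.Sign

open Module

universe u v w

/-- The parity of a cohomological degree. -/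
inductive Parity
  | even
  | odd

variable {F : Type u} [Field F] {Var : Type v}

/-- A pair of linear maps, one on even, one on odd cohomology: how a correspondence acts. -/
abbrev Action (F : Type u) [Field F] (H : Var → Parity → Type w) [∀ X e, AddCommGroup (H X e)]
    [∀ X e, Module F (H X e)] (X Y : Var) : Type _ :=
  ∀ e, H X e →ₗ[F] H Y e

/-- composition: first `f`, then `g` -/
def comp {H : Var → Parity → Type w} [∀ X e, AddCommGroup (H X e)] [∀ X e, Module F (H X e)]
    {X Y Z : Var} (g : Action F H Y Z) (f : Action F H X Y) : Action F H X Z :=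
  fun e => (g e).comp (f e)

/-- the action of the even Künneth projector: the identity on even, zero on odd cohomology -/
def evenProj (F : Type u) [Field F] (H : Var → Parity → Type w) [∀ X e, AddCommGroup (H X e)]
    [∀ X e, Module F (H X e)] (X : Var) : Action F H X X
  | .even => LinearMap.id
  | .odd => 0

/-- The trace on the even (resp. odd) cohomology. -/
noncomputable def tr {H : Var → Parity → Type w} [∀ X e, AddCommGroup (H X e)]
    [∀ X e, Module F (H X e)] {X : Var} (e : Parity) (f : Action F H X X) : F :=
  LinearMap.trace F (H X e) (f e)

/-- The Poincaré pairings `∫ x ∪ y` are bilinear and non-degenerate (Poincaré duality). -/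
structure IsDuality {H : Var → Parity → Type w} [∀ X e, AddCommGroup (H X e)]
    [∀ X e, Module F (H X e)] (form : ∀ X e, H X e → H X e → F) : Prop where
  add_left : ∀ X e x x' y, form X e (x + x') y = form X e x y + form X e x' y
  smul_left : ∀ X e (c : F) x y, form X e (c • x) y = c * form X e x y
  add_right : ∀ X e x y y', form X e x (y + y') = form X e x y + form X e x y'
  smul_right : ∀ X e (c : F) x y, form X e x (c • y) = c * form X e x y
  nondeg : ∀ X e y, (∀ x, form X e x y = 0) → y = 0

/-- The formal rules for algebraic correspondences. -/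
structure IsCorr {H : Var → Parity → Type w} [∀ X e, AddCommGroup (H X e)]
    [∀ X e, Module F (H X e)] (dim : Var → ℕ) (form : ∀ X e, H X e → H X e → F)
    (corr : ∀ X Y : Var, ℤ → Set (Action F H X Y)) : Prop where
  /-- `corr X Y r` is a `ℚ`-vector space -/
  zero_mem : ∀ X Y r, 0 ∈ corr X Y r
  add_mem : ∀ X Y r, ∀ f ∈ corr X Y r, ∀ g ∈ corr X Y r, f + g ∈ corr X Y r
  smul_mem : ∀ X Y r (q : ℚ), ∀ f ∈ corr X Y r, (q : F) • f ∈ corr X Y r
  /-- the diagonal -/
  id_mem : ∀ X, (fun _ => LinearMap.id) ∈ corr X X 0
  /-- composition -/
  comp_mem : ∀ X Y Z r s, ∀ f ∈ corr X Y r, ∀ g ∈ corr Y Z s, comp g f ∈ corr X Z (r + s)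
  /-- the transpose of an algebraic correspondence is algebraic, and it is the adjoint for the
  Poincaré pairings -/
  transpose : ∀ X Y r, ∀ f ∈ corr X Y r, ∃ g ∈ corr Y X (r + dim X - dim Y),
    ∀ e x y, form Y e (f e x) y = form X e x (g e y)
  /-- the alternating trace of a self-correspondence of degree `0` is its intersection number with
  the diagonal, hence rational -/
  trace_rat : ∀ X, ∀ f ∈ corr X X 0, ∃ q : ℚ, tr .even f - tr .odd f = (q : F)

/-- Smooth proper varieties over `k` (`Var`), with even and odd cohomology `H X even`, `H X odd`:
a Weil cohomology with coefficients in `F` (for instance de Rham cohomology in characteristic `0`,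
rational crystalline cohomology in characteristic `p`), and algebraic correspondences.

`corr X Y r` is the set of the algebraic correspondences of degree `r` from `X` to `Y`: the
`ℚ`-linear combinations of classes of cycles of codimension `dim X + r` on `X × Y`, given by their
action. They map `Hⁱ(X)` to `H^{i+2r}(Y)`, hence they act separately on even and odd
cohomology. -/
structure Weil (F : Type u) [Field F] {Var : Type v} (H : Var → Parity → Type w)
    [∀ X e, AddCommGroup (H X e)] [∀ X e, Module F (H X e)] where
  dim : Var → ℕ
  form : ∀ X e, H X e → H X e → F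
  corr : ∀ X Y : Var, ℤ → Set (Action F H X Y)
  isDuality : IsDuality form
  isCorr : IsCorr dim form corr

variable {H : Var → Parity → Type w} [∀ X e, AddCommGroup (H X e)] [∀ X e, Module F (H X e)]
  (M : Weil F H)

/-- The sign conjecture `C⁺(X)`: the even Künneth projector of `X` is algebraic. -/
def CPlus (X : Var) : Prop := evenProj F H X ∈ M.corr X X 0

/-- Homological and numerical equivalence coincide on the even (resp. odd) part of the
correspondences between the varieties in `𝒴`: the even (resp. odd) part of an algebraic
correspondence `f` is zero as soon as all the composites `h ∘ f` with algebraic correspondences `h`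
in the other direction, of the opposite degree, have trace zero on even (resp. odd) cohomology. -/
def HomNum (e : Parity) (𝒴 : Set Var) : Prop :=
  ∀ Y ∈ 𝒴, ∀ Y' ∈ 𝒴, ∀ r, ∀ f ∈ M.corr Y Y' r,
    (∀ h ∈ M.corr Y' Y (-r), tr e (comp h f) = 0) → f e = 0

/-- The part of the even (resp. odd) cohomology of `X` which is generated by `𝒴`: the sum of the
images of all the algebraic correspondences, of any degree, from varieties in `𝒴`. -/
def generated (e : Parity) (𝒴 : Set Var) (X : Var) : Submodule F (H X e) :=
  Submodule.span F {x | ∃ Y ∈ 𝒴, ∃ r, ∃ f ∈ M.corr Y X r, ∃ y, f e y = x}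

/-- The `F`-linear combinations of the composites `g ∘ f` of algebraic correspondences
`f : X ⊢ V` of some degree `r` and `g : V ⊢ X` of degree `-r`, where `V` is any variety satisfying
`C⁺`. -/
def Factor (X : Var) : Submodule F (Action F H X X) :=
  Submodule.span F {u | ∃ V r, CPlus M V ∧ ∃ f ∈ M.corr X V r, ∃ g ∈ M.corr V X (-r),
    u = comp g f}

/-- The subspace `S` of the even (resp. odd) cohomology of `X` is good: it is stable under all the
algebraic self-correspondences of `X` of degree `0` (for instance `S` may be `Hʲ(X)`, or
`Hʲ(X) + H^{2 dim X - j}(X)`), and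
* some `w` in `Factor M X` is injective on `S`, or
* `S` is generated by `𝒴` and the Poincaré pairing is non-degenerate on `S`. -/
def Good (e : Parity) (𝒴 : Set Var) (X : Var) (S : Submodule F (H X e)) : Prop :=
  (∀ u ∈ M.corr X X 0, ∀ x ∈ S, u e x ∈ S) ∧
    ((∃ w ∈ Factor M X, ∀ x ∈ S, w e x = 0 → x = 0) ∨
      (S ≤ generated M e 𝒴 X ∧ ∀ y ∈ S, (∀ x ∈ S, M.form X e x y = 0) → y = 0))

/-- The even (resp. odd) cohomology of `X` is a sum of good subspaces. -/
def Covered (e : Parity) (𝒴 : Set Var) (X : Var) : Prop :=
  ∃ (n : ℕ) (S : Fin n → Submodule F (H X e)), (⨆ i, S i) = ⊤ ∧ ∀ i, Good M e 𝒴 X (S i)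

end Pool.Agent.Helper89.GEN.Sign
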