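import Pool.Agent.Helper29.CPB.Idem

/-!
# A generalised inverse with rational traces
-/

namespace Pool.Agent.Helper89.GEN

open Module Polynomial Pool.Agent.Helper29.CPB

variable {F V : Type*} [Field F] [CharZero F] [AddCommGroup V] [Module F V] [FiniteDimensional F V]

/-- an admissible `v`: `v q` is an idempotent and `v = v q v` -/
def Adm (W : AddSubgroup (Module.End F V)) (q v : Module.End F V) : Prop :=
  v ∈ W ∧ v * q * v = v

omit [CharZero F] in
lemma exists_max (W : AddSubgroup (Module.End F V)) (q : Module.End F V) :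
    ∃ v, Adm W q v ∧ ∀ v', Adm W q v' →
      finrank F (LinearMap.range (v' * q)) ≤ finrank F (LinearMap.range (v * q)) := by
  classical
  let P : ℕ → Prop := fun n => ∃ v, Adm W q v ∧ finrank F (LinearMap.range (v * q)) = n
  have hb : ∀ n, P n → n ≤ finrank F V := by
    rintro n ⟨v, _, rfl⟩
    exact Submodule.finrank_le _
  have h0 : ∃ n, P n := ⟨_, 0, ⟨W.zero_mem, by simp⟩, rfl⟩
  obtain ⟨n, hn⟩ := h0
  have hP := Nat.findGreatest_spec (hb n hn) hn
  obtain ⟨v, hv, hr⟩ := hP
  refine ⟨v, hv, ?_⟩
  intro v' hv'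
  rw [hr]
  exact Nat.le_findGreatest (hb _ ⟨v', hv', rfl⟩) ⟨v', hv', rfl⟩

/-- If the traces are rational and numerically trivial elements vanish, `q` has a generalised
inverse. -/
theorem regular (W : AddSubgroup (Module.End F V)) (q : Module.End F V)
    (hQ : ∀ (c : ℚ), ∀ w ∈ W, (c : F) • w ∈ W)
    (hmul : ∀ w ∈ W, ∀ w' ∈ W, w * q * w' ∈ W)
    (hrat : ∀ w ∈ W, ∃ c : ℚ, LinearMap.trace F V (w * q) = (c : F))
    (hnum : ∀ v ∈ W, (∀ h ∈ W, LinearMap.trace F V (h * (q - q * v * q)) = 0) →
      q - q * v * q = 0) :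
    ∃ v ∈ W, q * v * q = q := by
  obtain ⟨v, ⟨hvW, hv⟩, hmax⟩ := exists_max W q
  refine ⟨v, hvW, ?_⟩
  by_contra hne
  have h1 : ¬ (∀ h ∈ W, LinearMap.trace F V (h * (q - q * v * q)) = 0) := by
    intro h
    apply hne
    have := hnum v hvW h
    rw [sub_eq_zero] at this
    exact this.symm
  push Not at h1
  obtain ⟨h, hhW, htr⟩ := h1
  set f := v * q with hf
  have hff : f * f = f := by rw [hf, ← mul_assoc, hv]
  set y := (1 - f) * h * (1 - q * v) with hy
  have hyW : y ∈ W := by
    have e : y = h - h * q * v - v * q * h + v * q * (h * q * v) := by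
      rw [hy, hf]; noncomm_ring
    rw [e]
    exact W.add_mem (W.sub_mem (W.sub_mem hhW (hmul h hhW v hvW)) (hmul v hvW h hhW))
      (hmul v hvW _ (hmul h hhW v hvW))
  set u := y * q with hu
  have hu1 : u = (1 - f) * h * (q - q * v * q) := by
    rw [hu, hy]; noncomm_ring
  have hqf : (q - q * v * q) = (q - q * v * q) * (1 - f) := by
    rw [hf]
    have : q * v * q * (v * q) = q * (v * q * v) * q := by noncomm_ring
    rw [mul_sub, mul_one, sub_mul, this, hv, ← mul_assoc, sub_self, sub_zero]
  have htru : LinearMap.trace F V u ≠ 0 := by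
    have e1 : LinearMap.trace F V u = LinearMap.trace F V (h * (q - q * v * q)) := by
      rw [hu1, mul_assoc, LinearMap.trace_mul_comm, mul_assoc, ← hqf]
    rwa [e1]
  have hf1 : f * (1 - f) = 0 := by rw [mul_sub, mul_one, hff, sub_self]
  have hfu : f * u = 0 := by
    rw [hu1, ← mul_assoc, ← mul_assoc, hf1, zero_mul, zero_mul]
  have huv : u * v = 0 := by
    have : (q - q * v * q) * v = 0 := by
      rw [sub_mul]
      have e : q * v * q * v = q * (v * q * v) := by noncomm_ring
      rw [e, hv, sub_self]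
    rw [hu1, mul_assoc, this, mul_zero]
  -- polynomials in `u`
  have hpow : ∀ n : ℕ, u ^ n * y ∈ W := by
    intro n
    induction n with
    | zero => rw [pow_zero, one_mul]; exact hyW
    | succ n ih =>
      rw [pow_succ', mul_assoc, hu]
      exact hmul y hyW _ ih
  have hpoly : ∀ P : ℚ[X], aeval u (P.map (algebraMap ℚ F)) * y ∈ W := by
    intro P
    rw [aeval_eq_sum_range, Finset.sum_mul]
    refine sum_mem fun n _ => ?_
    rw [coeff_map, smul_mul_assoc]
    exact hQ _ _ (hpow n)
  have hrat' : ∀ n, 1 ≤ n → ∃ c : ℚ, LinearMap.trace F V (u ^ n) = (c : F) := by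
    intro n hn
    obtain ⟨m, rfl⟩ : ∃ m, n = m + 1 := ⟨n - 1, by omega⟩
    rw [pow_succ, hu, ← mul_assoc, ← hu]
    exact hrat _ (hpow m)
  have hnn : ¬ IsNilpotent u := by
    intro hnil
    apply htru
    exact (LinearMap.isNilpotent_trace_of_isNilpotent hnil).eq_zero
  obtain ⟨e, he1, he2⟩ := exists_idem u hrat' hnn
  set p := aeval u (e.map (algebraMap ℚ F)) with hp
  have hpc : p * u = u * p := by
    have h1 : u = aeval u (Polynomial.X : F[X]) := by simp
    calc p * u = aeval u (e.map (algebraMap ℚ F)) * aeval u (Polynomial.X : F[X]) := by rw [← h1]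
      _ = aeval u (Polynomial.X : F[X]) * aeval u (e.map (algebraMap ℚ F)) := by
        rw [← map_mul, ← map_mul, mul_comm]
      _ = u * p := by rw [← h1]
  set g := p * u with hg
  set k := g * p * y with hk
  have hkW : k ∈ W := by
    have e1 : k = aeval u ((e * X * e).map (algebraMap ℚ F)) * y := by
      rw [hk, hg, hp]
      simp only [Polynomial.map_mul, map_mul, Polynomial.map_X, aeval_X]
    rw [e1]
    exact hpoly _
  have k1 : k * q = g := by
    rw [hk, mul_assoc, ← hu, mul_assoc, ← hg, he1]
  have k2 : f * k = 0 := by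
    have e1 : f * k = f * u * (p * p * y) := by
      rw [hk, hpc]; simp only [mul_assoc]
    rw [e1, hfu, zero_mul]
  have k3 : g * v = 0 := by rw [hg, mul_assoc, huv, mul_zero]
  have k4 : g * k = k := by
    have e1 : g * k = g * g * (p * y) := by rw [hk]; simp only [mul_assoc]
    rw [e1, he1, hk]
    exact (mul_assoc _ _ _).symm
  have hadm : Adm W q (v + k) := by
    refine ⟨W.add_mem hvW hkW, ?_⟩
    rw [add_mul, k1, add_mul, mul_add, mul_add, hv, k3, k4, ← hf, k2]
    abel
  have hle := hmax _ hadm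
  have if2 : ((v + k) * q) * ((v + k) * q) = (v + k) * q := by
    rw [← mul_assoc, hadm.2]
  have t1 := trace_idem _ hff
  have t2 := trace_idem _ if2
  have t3 := trace_idem _ he1
  have t4 : LinearMap.trace F V ((v + k) * q) =
      LinearMap.trace F V f + LinearMap.trace F V g := by
    rw [add_mul, k1, map_add]
  rw [t1, t2, t3] at t4
  have t5 : finrank F (LinearMap.range ((v + k) * q)) =
      finrank F (LinearMap.range f) + finrank F (LinearMap.range g) := by
    exact_mod_cast t4
  have t6 : finrank F (LinearMap.range g) = 0 := by omega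
  rw [Submodule.finrank_eq_zero] at t6
  exact he2 (LinearMap.range_eq_bot.mp t6)

end Pool.Agent.Helper89.GEN
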