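import Mathlib

/-!
# A Weil cohomology, algebraic correspondences, generation of one parity

The structure `Weil` holds only data and formal properties which belong to the definition of a Weil
cohomology theory (finite dimensional even and odd cohomology, Poincaré duality) and of algebraic
correspondences (`ℚ`-spaces stable under composition and transposition, containing the diagonal,
whose alternating traces are intersection numbers). No geometric theorem is assumed.
-/

namespace Pool.Agent.Helper89.GEN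

open Module

universe u v w

/-- A finite dimensional super vector space: the cohomology of a variety, with its even part `Ev`
and its odd part `Od`. -/
structure Super (F : Type u) [Field F] where
  /-- even part -/
  Ev : Type w
  /-- odd part -/
  Od : Type w
  [evGroup : AddCommGroup Ev]
  [evModule : Module F Ev]
  [evFin : FiniteDimensional F Ev]
  [odGroup : AddCommGroup Od]
  [odModule : Module F Od]
  [odFin : FiniteDimensional F Od]

attribute [instance] Super.evGroup Super.evModule Super.evFin Super.odGroup Super.odModule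
  Super.odFin

variable {F : Type u} [Field F]

/-- The linear maps preserving parity, as pairs (map on even parts, map on odd parts). -/
def Hom (V W : Super.{u, w} F) : Type _ := (V.Ev →ₗ[F] W.Ev) × (V.Od →ₗ[F] W.Od)

instance (V W : Super.{u, w} F) : AddCommGroup (Hom V W) :=
  inferInstanceAs (AddCommGroup ((V.Ev →ₗ[F] W.Ev) × (V.Od →ₗ[F] W.Od)))

instance (V W : Super.{u, w} F) : Module F (Hom V W) :=
  inferInstanceAs (Module F ((V.Ev →ₗ[F] W.Ev) × (V.Od →ₗ[F] W.Od)))

/-- the identity -/
def Hom.id (V : Super F) : Hom V V := (LinearMap.id, LinearMap.id)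

/-- the even projector: identity on the even part, zero on the odd part -/
def Hom.evenProj (V : Super F) : Hom V V := (LinearMap.id, 0)

/-- composition (first `f`, then `g`) -/
def Hom.comp {U V W : Super F} (g : Hom V W) (f : Hom U V) : Hom U W :=
  (g.1 ∘ₗ f.1, g.2 ∘ₗ f.2)

/-- the alternating trace -/
noncomputable def Hom.str {V : Super F} (f : Hom V V) : F :=
  LinearMap.trace F V.Ev f.1 - LinearMap.trace F V.Od f.2

/-- Smooth proper varieties over `k`, a Weil cohomology with coefficients in `F`, and the algebraic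
correspondences between the varieties. `corr X Y r` is the space of algebraic correspondences of
degree `r` from `X` to `Y`: the `ℚ`-linear combinations of classes of cycles of codimension
`dim X + r` on `X × Y`. They map `Hⁱ(X)` to `H^{i+2r}(Y)`, hence they act separately on even and
odd cohomology. The alternating trace of a self-correspondence of degree `0` is its intersection
number with the diagonal, hence rational. -/
structure Weil (F : Type u) [Field F] where
  /-- the varieties -/
  Var : Type v
  /-- the dimension -/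
  dim : Var → ℕ
  /-- cohomology -/
  H : Var → Super.{u, w} F
  /-- Poincaré duality: the pairing `∫ x ∪ y` on the even cohomology -/
  evForm : ∀ X, (H X).Ev →ₗ[F] (H X).Ev →ₗ[F] F
  /-- the pairing `∫ x ∪ y` on the odd cohomology -/
  odForm : ∀ X, (H X).Od →ₗ[F] (H X).Od →ₗ[F] F
  ev_nondeg : ∀ X y, (∀ x, evForm X x y = 0) → y = 0
  od_nondeg : ∀ X y, (∀ x, odForm X x y = 0) → y = 0
  /-- the algebraic correspondences of degree `r` -/
  corr : ∀ (X Y : Var) (_ : ℤ), AddSubgroup (Hom (H X) (H Y))
  smul_mem : ∀ (X Y : Var) (r : ℤ) (q : ℚ), ∀ f ∈ corr X Y r, (q : F) • f ∈ corr X Y r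
  id_mem : ∀ X, Hom.id (H X) ∈ corr X X 0
  comp_mem : ∀ (X Y Z : Var) (r s : ℤ), ∀ f ∈ corr X Y r, ∀ g ∈ corr Y Z s,
    g.comp f ∈ corr X Z (r + s)
  /-- the transpose of an algebraic correspondence is algebraic, and it is the adjoint for the
  Poincaré pairings -/
  transpose : ∀ (X Y : Var) (r : ℤ), ∀ f ∈ corr X Y r, ∃ g ∈ corr Y X (r + dim X - dim Y),
    (∀ x y, evForm Y (f.1 x) y = evForm X x (g.1 y)) ∧
    (∀ x y, odForm Y (f.2 x) y = odForm X x (g.2 y))
  str_rat : ∀ (X : Var), ∀ f ∈ corr X X 0, ∃ q : ℚ, f.str = (q : F)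

variable (M : Weil.{u, v, w} F)

/-- `C⁺(X)`: the even Künneth projector of `X` is algebraic. -/
def CPlus (X : M.Var) : Prop := Hom.evenProj (M.H X) ∈ M.corr X X 0

/-- The `F`-linear combinations of the composites `g ∘ f` of algebraic correspondences
`f : X ⊢ Y` of some degree `r` and `g : Y ⊢ X` of degree `-r`, where `Y` satisfies `C⁺`. -/
def Factor (X : M.Var) : Submodule F (Hom (M.H X) (M.H X)) :=
  Submodule.span F {u | ∃ (Y : M.Var) (r : ℤ), CPlus M Y ∧ ∃ f ∈ M.corr X Y r,
    ∃ g ∈ M.corr Y X (-r), u = g.comp f}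

/-- Homological and numerical equivalence coincide on the odd part of the correspondences between
the varieties in `𝒴`. -/
def OddHomNum (𝒴 : Set M.Var) : Prop :=
  ∀ Y ∈ 𝒴, ∀ Y' ∈ 𝒴, ∀ r, ∀ f ∈ M.corr Y Y' r,
    (∀ h ∈ M.corr Y' Y (-r), LinearMap.trace F (M.H Y).Od (h.2 ∘ₗ f.2) = 0) → f.2 = 0

/-- Homological and numerical equivalence coincide on the even part of the correspondences between
the varieties in `𝒴`. -/
def EvenHomNum (𝒴 : Set M.Var) : Prop :=
  ∀ Y ∈ 𝒴, ∀ Y' ∈ 𝒴, ∀ r, ∀ f ∈ M.corr Y Y' r,
    (∀ h ∈ M.corr Y' Y (-r), LinearMap.trace F (M.H Y).Ev (h.1 ∘ₗ f.1) = 0) → f.1 = 0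

/-- The part of the odd cohomology of `X` generated by `𝒴`: the sum of the images of all algebraic
correspondences (of any degree) from varieties in `𝒴`. -/
def oddImage (𝒴 : Set M.Var) (X : M.Var) : Submodule F (M.H X).Od :=
  Submodule.span F {x | ∃ Y ∈ 𝒴, ∃ r, ∃ f ∈ M.corr Y X r, ∃ y, f.2 y = x}

/-- The part of the even cohomology of `X` generated by `𝒴`. -/
def evenImage (𝒴 : Set M.Var) (X : M.Var) : Submodule F (M.H X).Ev :=
  Submodule.span F {x | ∃ Y ∈ 𝒴, ∃ r, ∃ f ∈ M.corr Y X r, ∃ y, f.1 y = x}

/-- The odd cohomology of `X` is the sum of subspaces `S i`, stable under all algebraic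
self-correspondences of `X` of degree `0` (for instance `Hʲ(X)`, or `Hʲ(X) + H^{2 dim X - j}(X)`),
such that for every `i`: some `w` in `Factor M X` is injective on `S i`; or the Poincaré pairing is
non-degenerate on `S i` and `S i` is generated by `𝒴`. -/
def OddCovered (𝒴 : Set M.Var) (X : M.Var) : Prop :=
  ∃ (n : ℕ) (S : Fin n → Submodule F (M.H X).Od), (⨆ i, S i = ⊤) ∧
    ∀ i, (∀ u ∈ M.corr X X 0, ∀ x ∈ S i, u.2 x ∈ S i) ∧
      ((∃ w ∈ Factor M X, ∀ x ∈ S i, w.2 x = 0 → x = 0) ∨
        ((∀ y ∈ S i, (∀ x ∈ S i, M.odForm X x y = 0) → y = 0) ∧ S i ≤ oddImage M 𝒴 X))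

/-- The same for the even cohomology of `X`. -/
def EvenCovered (𝒴 : Set M.Var) (X : M.Var) : Prop :=
  ∃ (n : ℕ) (S : Fin n → Submodule F (M.H X).Ev), (⨆ i, S i = ⊤) ∧
    ∀ i, (∀ u ∈ M.corr X X 0, ∀ x ∈ S i, u.1 x ∈ S i) ∧
      ((∃ w ∈ Factor M X, ∀ x ∈ S i, w.1 x = 0 → x = 0) ∨
        ((∀ y ∈ S i, (∀ x ∈ S i, M.evForm X x y = 0) → y = 0) ∧ S i ≤ evenImage M 𝒴 X))

end Pool.Agent.Helper89.GEN
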